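import Pool.Agent.N126.RC.FinCover

/-!
Rational points on finite coverings ramified over generic members of linear systems.
-/

set_option autoImplicit false

open MvPolynomial Pool.Agent.W602.GT Pool.Agent.TH145.GH Pool.Agent.N126.RC
open Pool.Agent.TH145.MG (DimLE)
open Pool.Agent.TH145.GD (St deg_St)

namespace Pool.Agent.V8H90.LS

variable {k0 K : Type} [Field k0] [Field K] [Algebra k0 K] {n m : ℕ} {A : Type} {d q : A → ℕ}

theorem form_hom {J : A → Type} [∀ a, Fintype (J a)]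
    {P : ∀ a, J a → MvPolynomial (Fin (n + 1)) k0} (hP : ∀ a j, (P a j).IsHomogeneous (d a))
    {cf : ∀ a, J a → K} {F : A → MvPolynomial (Fin (n + 1)) K}
    (hFP : ∀ a, F a = ∑ j, C (cf a j) * map (algebraMap k0 K) (P a j)) (a : A) :
    (F a).IsHomogeneous (d a) := by
  rw [hFP]
  refine IsHomogeneous.sum _ _ _ fun j _ => ?_
  have := (isHomogeneous_C (Fin (n + 1)) (cf a j)).mul ((hP a j).map (algebraMap k0 K))
  rwa [zero_add] at this

/-- Finiteness of the points of the covering over the points with `x c ≠ 0`. -/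
theorem fin_cover [IsAlgClosed K] [CharZero K] [IsAlgClosed k0] [Fintype A] [DecidableEq A]
    (C : Finset A) (hq : ∀ a, a ∉ C → q a ≠ 0)
    (hd : (2 * m + 1 : ℚ) < ∑ a ∈ C, ((d a : ℚ) + 1) + ∑ a ∈ Cᶜ, (d a : ℚ) * (1 - 1 / q a))
    (V : Set (MvPolynomial (Fin (n + 1)) k0)) (hV : DimLE k0 V m)
    {J : A → Type} [∀ a, Fintype (J a)]
    (P : ∀ a, J a → MvPolynomial (Fin (n + 1)) k0) (hP : ∀ a j, (P a j).IsHomogeneous (d a))
    (cf : ∀ a, J a → K) (j0 : ∀ a, J a) (h0 : ∀ a, cf a (j0 a) ≠ 0)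
    (hind : AlgebraicIndependent k0 fun p : Σ a, {j : J a // j ≠ j0 a} =>
      cf p.1 p.2.1 / cf p.1 (j0 p.1))
    {F : A → MvPolynomial (Fin (n + 1)) K}
    (hFP : ∀ a, F a = ∑ j, MvPolynomial.C (cf a j) * map (algebraMap k0 K) (P a j))
    {W ι : Type} [Finite W] [Finite ι] (e : W → ℕ)
    (G : ι → MvPolynomial (Fin (n + 1) ⊕ W) K)
    (hGh : ∀ i, ∃ c, (G i).IsWeightedHomogeneous (wts e) c) (hfo : FiniteOver G)
    (hov : Over V F C G) (hram : ∀ a, a ∉ C → RamifiedOver G (F a) (q a))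
    (c : Fin (n + 1)) (hSt : ∀ a, ∀ I ∈ St c (d a), ∃ j, P a j = monomial I 1)
    (T : Finset K) :
    ∃ S : Finset (Fin (n + 1) ⊕ W → K), ∀ z : Fin (n + 1) ⊕ W → K, z (Sum.inl c) ≠ 0 →
      (∀ i, eval z (G i) = 0) → (∀ v, z v ∈ IntermediateField.adjoin k0 (T : Set K)) →
      ∃ s ∈ S, ∃ t : K, ∀ v, z v = t ^ wts e v * s v := by
  classical
  obtain ⟨N, hN0, hqN⟩ := exists_N C q
  have hFh : ∀ a, (F a).IsHomogeneous (d a) := form_hom hP hFP
  have hfin := fun (C' : {C' : Finset A // C ⊆ C'}) =>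
    fin_points' Pool.Agent.N617.RC.main_MULT Pool.Agent.N438.RC.main_BND
      Pool.Agent.N681.RC.main_MAP (N := N) (m := m) (q := q) C'.1 (by
      have h5 := num_cond hd hN0 hqN C'.2
      have h6 : ∀ S : Finset A, (∀ a, a ∈ S ↔ a ∉ C'.1) → N * (2 * m + 1) +
          ∑ a ∈ S, N / q a * d a < N * (∑ a, d a + C'.1.card) := by
        intro S hS
        have h7 : S = C'.1ᶜ := by
          ext a
          rw [hS, Finset.mem_compl]
        rw [h7]
        exact h5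
      exact h6 _ fun a => by simp) (fun a ha hqa => hqN a (fun h => ha (C'.2 h)) hqa)
      V hV P hP c hSt cf j0 h0 hind hFP e G hGh hfo
      (fun a ha hqa => Pool.Agent.N263.RC.main_NS K n W ι G (F a) (q a)
        (hram a (fun h => ha (C'.2 h)))) T
  have hfin2 : (⋃ (C' : {C' : Finset A // C ⊆ C'}), ⋃ x ∈ {x : Fin (n + 1) → K |
      (∀ j, x j ∈ IntermediateField.adjoin k0 (T : Set K)) ∧ x c = 1 ∧
      (∀ f ∈ V, aeval x f = 0) ∧ (∀ a ∈ C'.1, eval x (F a) = 0) ∧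
      (∀ a, a ∉ C'.1 → eval x (F a) ≠ 0) ∧
      (∀ a, a ∉ C'.1 → q a = 0 → ∀ j, x j ^ d a / eval x (F a) ∈
        Subring.closure (Set.range (algebraMap k0 K) ∪ (T : Set K))) ∧
      ∃ u : W → K, (∀ w, u w ∈ IntermediateField.adjoin k0 (T : Set K)) ∧
        ∀ i, eval (Sum.elim x u) (G i) = 0},
      {z : Fin (n + 1) ⊕ W → K | (∀ i, eval z (G i) = 0) ∧
        ∀ j, z (Sum.inl j) = x j}).Finite := by
    refine Set.finite_iUnion fun C' => ?_
    exact Set.Finite.biUnion (hfin C') fun x _ => fibre_finite hfo x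
  refine ⟨hfin2.toFinset, fun z hc hzG hzT => ?_⟩
  have hzx := hov z hzG
  obtain ⟨C', hC'⟩ : ∃ C' : Finset A, ∀ a, a ∈ C' ↔ eval (fun j => z (Sum.inl j)) (F a) = 0 :=
    ⟨Finset.univ.filter fun a => eval (fun j => z (Sum.inl j)) (F a) = 0, fun a => by simp⟩
  have hsub : C ⊆ C' := fun a ha => (hC' a).2 (hzx.2 a ha)
  obtain ⟨t, ht⟩ : ∃ t, t = z (Sum.inl c) := ⟨_, rfl⟩
  rw [← ht] at hc
  have hzG' : ∀ i, eval (fun v => t⁻¹ ^ wts e v * z v) (G i) = 0 := by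
    intro i
    obtain ⟨c', hc'⟩ := hGh i
    rw [eval_scale hc', hzG i, mul_zero]
  have hzov := hov _ hzG'
  have hxe : (fun j : Fin (n + 1) => t⁻¹ ^ wts e (Sum.inl j : Fin (n + 1) ⊕ W) * z (Sum.inl j)) =
      t⁻¹ • fun j => z (Sum.inl j) := by
    funext j
    change t⁻¹ ^ 1 * z (Sum.inl j) = t⁻¹ * z (Sum.inl j)
    rw [pow_one]
  have htT : t⁻¹ ∈ IntermediateField.adjoin k0 (T : Set K) := inv_mem (ht ▸ hzT (Sum.inl c))
  refine ⟨fun v => t⁻¹ ^ wts e v * z v, ?_, t, fun v => ?_⟩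
  · rw [Set.Finite.mem_toFinset, Set.mem_iUnion]
    refine ⟨⟨C', hsub⟩, ?_⟩
    rw [Set.mem_iUnion₂]
    refine ⟨t⁻¹ • fun j => z (Sum.inl j), ⟨fun j => ?_, ?_, ?_, fun a ha => ?_, fun a ha => ?_,
      fun a ha hqa j => ?_, fun w => t⁻¹ ^ e w * z (Sum.inr w), fun w => ?_,
      fun i => ?_⟩, hzG', fun j => ?_⟩
    · exact mul_mem htT (hzT _)
    · change t⁻¹ * z (Sum.inl c) = 1
      rw [← ht, inv_mul_cancel₀ hc]
    · rw [← hxe]
      exact hzov.1
    · rw [eval_smul_hom (hFh a), (hC' a).1 ha, mul_zero]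
    · rw [eval_smul_hom (hFh a)]
      exact mul_ne_zero (pow_ne_zero _ (inv_ne_zero hc)) fun h => ha ((hC' a).2 h)
    · exact absurd hqa (hq a fun h => ha (hsub h))
    · exact mul_mem (pow_mem htT _) (hzT _)
    · have h3 : Sum.elim (t⁻¹ • fun j => z (Sum.inl j))
          (fun w => t⁻¹ ^ e w * z (Sum.inr w)) = fun v => t⁻¹ ^ wts e v * z v := by
        funext v
        rcases v with j | w
        · exact (congrFun hxe j).symm
        · rfl
      rw [h3]
      exact hzG' i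
    · exact congrFun hxe j
  · rw [← mul_assoc, ← mul_pow, mul_inv_cancel₀ hc, one_pow, one_mul]

end Pool.Agent.V8H90.LS
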