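import Pool.Agent.N126.RC.FinalW
import Pool.Agent.TH145.GE.CurveLin
import Pool.Agent.V8H90.LS.Fin

/-!
Curves in finite coverings ramified over generic members of linear systems.
-/

set_option autoImplicit false

open MvPolynomial FF Pool.Agent.W603.LV Pool.Agent.W603.PV Pool.Agent.W602.GT Pool.Agent.TH145.GH
open Pool.Agent.TH145.MG (DimLE)
open Pool.Agent.TH145.GD (St deg_St)
open Pool.Agent.N126.RC

namespace Pool.Agent.V8H90.LS

/-- **Curves in ramified coverings.** -/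
theorem curve_cover {k0 K L : Type} [Field k0] [Field K] [Algebra k0 K] [IsAlgClosed K]
    [CharZero K] [Field L] [Algebra K L] [IsFF K L] {n m : ℕ} {A : Type} {d q : A → ℕ} [Fintype A]
    [DecidableEq A] (C : Finset A) (hq : ∀ a, a ∉ C → q a ≠ 0)
    (V : Set (MvPolynomial (Fin (n + 1)) k0)) (hVh : ∀ f ∈ V, ∃ e, f.IsHomogeneous e)
    (hV : DimLE k0 V m) {J : A → Type} [∀ a, Fintype (J a)]
    (P : ∀ a, J a → MvPolynomial (Fin (n + 1)) k0) (hP : ∀ a j, (P a j).IsHomogeneous (d a))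
    (cf : ∀ a, J a → K) (j0 : ∀ a, J a) (h0 : ∀ a, cf a (j0 a) ≠ 0)
    (hind : AlgebraicIndependent k0 fun p : Σ a, {j : J a // j ≠ j0 a} =>
      cf p.1 p.2.1 / cf p.1 (j0 p.1))
    {F : A → MvPolynomial (Fin (n + 1)) K}
    (hFP : ∀ a, F a = ∑ j, MvPolynomial.C (cf a j) * map (algebraMap k0 K) (P a j))
    {W ι : Type} [Finite W] (e : W → ℕ)
    (G : ι → MvPolynomial (Fin (n + 1) ⊕ W) K)
    (hGh : ∀ i, ∃ c, (G i).IsWeightedHomogeneous (wts e) c) (hfo : FiniteOver G)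
    (hov : Over V F C G) (hram : ∀ a, a ∉ C → RamifiedOver G (F a) (q a))
    (c : Fin (n + 1)) (hSt : ∀ a, ∀ I ∈ St c (d a), ∃ j, P a j = monomial I 1)
    (z : Fin (n + 1) ⊕ W → L) (c1 : Fin (n + 1)) (hc1 : z (Sum.inl c1) = 1)
    (hc : z (Sum.inl c) ≠ 0)
    (hz : ∀ i, aeval z (G i) = 0) (hnc : ∃ v, z v ∉ Set.range (algebraMap K L)) :
    (∑ a ∈ C, ((d a : ℚ) + 1) + ∑ a ∈ Cᶜ, (d a : ℚ) * (1 - 1 / q a) - 2 * m) *
      pht K (fun j => z (Sum.inl j)) ≤ canDeg K L := by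
  classical
  have hFh : ∀ a, (F a).IsHomogeneous (d a) := form_hom hP hFP
  obtain ⟨x, hx⟩ : ∃ x : Fin (n + 1) → L, x = fun j => z (Sum.inl j) := ⟨_, rfl⟩
  have hxc1 : x c1 = 1 := by rw [hx]; exact hc1
  have hxc10 : x c1 ≠ 0 := by rw [hxc1]; exact one_ne_zero
  have hxc0 : x c ≠ 0 := by rw [hx]; exact hc
  have hx0 : x ≠ 0 := fun h => hxc0 (by rw [h]; rfl)
  have hren : ∀ g : MvPolynomial (Fin (n + 1)) K,
      aeval z (rename (Sum.inl : Fin (n + 1) → Fin (n + 1) ⊕ W) g) = aeval x g := by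
    intro g
    rw [aeval_rename, hx]
    rfl
  have hrenK : ∀ (g : MvPolynomial (Fin (n + 1)) K) (y : Fin (n + 1) ⊕ W → K),
      eval y (rename (Sum.inl : Fin (n + 1) → Fin (n + 1) ⊕ W) g) =
        eval (fun j => y (Sum.inl j)) g := by
    intro g y
    rw [eval_rename]
    rfl
  have hxV : ∀ f ∈ V, aeval x (map (algebraMap k0 K) f) = 0 := by
    intro f hf
    rw [← hren]
    refine ns_point G _ (fun y hy => ?_) z hz
    rw [hrenK, eval_map]
    exact (hov y hy).1 f hf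
  have hxC : ∀ a ∈ C, aeval x (F a) = 0 := by
    intro a ha
    rw [← hren]
    refine ns_point G _ (fun y hy => ?_) z hz
    rw [hrenK]
    exact (hov y hy).2 a ha
  obtain ⟨C', hC'⟩ : ∃ C' : Finset A, ∀ a, a ∈ C' ↔ aeval x (F a) = 0 :=
    ⟨Finset.univ.filter fun a => aeval x (F a) = 0, fun a => by simp⟩
  have hsub : C ⊆ C' := fun a ha => (hC' a).2 (hxC a ha)
  have hCn : ∀ a, a ∉ C' → a ∉ C := fun a ha h => ha (hsub h)
  have hxnc : ∃ i j, x j ≠ 0 ∧ x i / x j ∉ Set.range (algebraMap K L) := by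
    by_contra hcon
    push Not at hcon
    obtain ⟨v, hv⟩ := hnc
    refine hv (const_of_x hfo z hz (fun j => ?_) v)
    have h1 := hcon j c1 hxc10
    rw [hxc1, div_one] at h1
    rw [hx] at h1
    exact h1
  have h1 := Pool.Agent.TH145.GE.curve_lin V hVh hV P hP cf j0 h0 hind c hSt hFP C' x hxc0 hxnc hxV
    (fun a ha => (hC' a).1 ha) (fun a ha h => ha ((hC' a).2 h))
  have hpht : 0 ≤ pht K x := by
    unfold pht
    rw [← finsum_neg_distrib]
    refine finsum_nonneg fun P => ?_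
    have := pord_le P (f := x) hxc10
    rw [hxc1, P.ord_one] at this
    omega
  -- the zeros
  obtain ⟨Z, hZ⟩ : ∃ Z : A → Set (Place K L), ∀ a, Z a =
    {P | d a * pord P x < P.ord (aeval x (F a))} := ⟨_, fun _ => rfl⟩
  have hZq : ∀ a, a ∉ C' → (Z a).Finite ∧ (q a : ℤ) * (Z a).ncard ≤ d a * pht K x := by
    intro a ha
    rw [hZ]
    have hFa : aeval x (F a) ≠ 0 := fun h => ha ((hC' a).2 h)
    refine zeros_le (hFh a) hx0 hFa fun Q hQ => ?_
    rw [hx]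
    rw [hx] at hQ hFa hx0
    exact mult_all e G hGh hfo (hFh a) (hram a (hCn a ha)) z hz hx0 hFa Q hQ
  have hcover : {P : Place K L | ∃ a, a ∉ C' ∧ d a * pord P x < P.ord (aeval x (F a))} ⊆
      ⋃ a ∈ (C'ᶜ : Finset A), Z a := by
    rintro P ⟨a, ha, hP⟩
    rw [Set.mem_iUnion₂]
    refine ⟨a, Finset.mem_compl.2 ha, ?_⟩
    rw [hZ]; exact hP
  have hZfin : (⋃ a ∈ (C'ᶜ : Finset A), Z a).Finite := by
    refine Set.Finite.biUnion (Finset.finite_toSet _) fun a ha => ?_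
    rw [Finset.mem_coe, Finset.mem_compl] at ha
    exact (hZq a ha).1
  have h2 : {P : Place K L | ∃ a, a ∉ C' ∧ d a * pord P x < P.ord (aeval x (F a))}.ncard ≤
      ∑ a ∈ C'ᶜ, (Z a).ncard :=
    (Set.ncard_le_ncard hcover hZfin).trans (Finset.set_ncard_biUnion_le _ _)
  have h3 : ((∑ a ∈ C'ᶜ, (Z a).ncard : ℕ) : ℚ) ≤
      ∑ a ∈ C'ᶜ, (d a : ℚ) * (1 / q a) * pht K x := by
    rw [Nat.cast_sum]
    refine Finset.sum_le_sum fun a ha => ?_
    rw [Finset.mem_compl] at ha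
    have h4 := (hZq a ha).2
    have h5 : (0 : ℚ) < q a := by exact_mod_cast Nat.pos_of_ne_zero (hq a (hCn a ha))
    have h6 : (q a : ℚ) * (Z a).ncard ≤ d a * pht K x := by exact_mod_cast h4
    rw [mul_assoc, mul_comm (1 / (q a : ℚ)), ← mul_assoc, mul_one_div, le_div_iff₀ h5, mul_comm]
    exact h6
  have h4 : (((∑ a, d a : ℕ) : ℚ) + C'.card - 2 * m) * pht K x ≤ canDeg K L +
      {P : Place K L | ∃ a, a ∉ C' ∧ d a * pord P x < P.ord (aeval x (F a))}.ncard := by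
    exact_mod_cast h1
  have h5 : (({P : Place K L | ∃ a, a ∉ C' ∧ d a * pord P x < P.ord (aeval x (F a))}.ncard : ℕ) :
      ℚ) ≤ ∑ a ∈ C'ᶜ, (d a : ℚ) * (1 / q a) * pht K x :=
    le_trans (by exact_mod_cast h2) h3
  have h6 : ∑ a ∈ C'ᶜ, (d a : ℚ) * (1 / q a) ≤ ∑ a ∈ Cᶜ, (d a : ℚ) * (1 / q a) :=
    Finset.sum_le_sum_of_subset_of_nonneg (Finset.compl_subset_compl.2 hsub)
      fun _ _ _ => by positivity
  have h7 : ∑ a ∈ Cᶜ, (d a : ℚ) * (1 - 1 / q a) = ∑ a ∈ Cᶜ, (d a : ℚ) -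
      ∑ a ∈ Cᶜ, (d a : ℚ) * (1 / q a) := by
    rw [← Finset.sum_sub_distrib]
    exact Finset.sum_congr rfl fun a _ => by ring
  have h8 : ∑ a ∈ C, ((d a : ℚ) + 1) = ∑ a ∈ C, (d a : ℚ) + C.card := by
    rw [Finset.sum_add_distrib]
    simp
  have h9 : ∑ a ∈ C, (d a : ℚ) + ∑ a ∈ Cᶜ, (d a : ℚ) = ∑ a, (d a : ℚ) :=
    Finset.sum_add_sum_compl C _
  have h10 : (C.card : ℚ) ≤ C'.card := by exact_mod_cast Finset.card_le_card hsub
  have h11 : (0 : ℚ) ≤ pht K x := by exact_mod_cast hpht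
  rw [← hx]
  rw [← Finset.sum_mul] at h5
  have h12 : (∑ a ∈ C, ((d a : ℚ) + 1) + ∑ a ∈ Cᶜ, (d a : ℚ) * (1 - 1 / q a) - 2 * m) *
      pht K x ≤ (((∑ a, d a : ℕ) : ℚ) + C'.card - 2 * m - ∑ a ∈ C'ᶜ, (d a : ℚ) * (1 / q a)) *
        pht K x := by
    refine mul_le_mul_of_nonneg_right ?_ h11
    rw [h7, h8, Nat.cast_sum]
    linarith
  linarith

end Pool.Agent.V8H90.LS
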