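import Pool.Agent.V8H90.LS.Curve

/-!
The part of a closed subset of a weighted projective space over a linear subspace, and the
properties of the question.
-/

set_option autoImplicit false

open MvPolynomial FF Pool.Agent.W603.LV Pool.Agent.W603.PV Pool.Agent.W602.GT Pool.Agent.TH145.GH
open Pool.Agent.TH145.MG (DimLE)
open Pool.Agent.TH145.GD (St deg_St)
open Pool.Agent.N126.RC

namespace Pool.Agent.V8H90.LS

variable {n : ℕ} {W ι A : Type}

/-- The equations of the part of `X = {G = 0}` over the linear subspace `x_c = 0`, `c ∈ Z`. -/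
noncomputable def part {K : Type} [Field K] (Z : Set (Fin (n + 1)))
    (G : ι → MvPolynomial (Fin (n + 1) ⊕ W) K) : ι ⊕ Z → MvPolynomial (Fin (n + 1) ⊕ W) K :=
  Sum.elim G fun c => X (Sum.inl c.1)

/-- `X = {G = 0}` has only finitely many points that have homogeneous coordinates in the set `R`. -/
def FinOn {K : Type} [Field K] (e : W → ℕ) (G : ι → MvPolynomial (Fin (n + 1) ⊕ W) K)
    (R : Set K) : Prop :=
  ∃ S : Finset (Fin (n + 1) ⊕ W → K), ∀ z : Fin (n + 1) ⊕ W → K, z ≠ 0 →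
    (∀ i, eval z (G i) = 0) → (∀ v, z v ∈ R) → ∃ s ∈ S, ∃ t : K, ∀ v, z v = t ^ wts e v * s v

/-- Only finitely many points of `X = {G = 0}` that have homogeneous coordinates in the set `R` are
not over the linear subspace `x_c = 0`, `c ∈ Z`. -/
def FinOff {K : Type} [Field K] (Z : Set (Fin (n + 1))) (e : W → ℕ)
    (G : ι → MvPolynomial (Fin (n + 1) ⊕ W) K) (R : Set K) : Prop :=
  ∃ S : Finset (Fin (n + 1) ⊕ W → K), ∀ z : Fin (n + 1) ⊕ W → K, (∃ c ∈ Z, z (Sum.inl c) ≠ 0) →
    (∀ i, eval z (G i) = 0) → (∀ v, z v ∈ R) → ∃ s ∈ S, ∃ t : K, ∀ v, z v = t ^ wts e v * s v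

/-- `τ deg f ≤ 2 g - 2` for the nonconstant morphisms `f` from smooth projective curves of genus `g`
to `X = {G = 0}` with image not over the linear subspace `x_c = 0`, `c ∈ Z`: `L` is the function
field of the curve, the coordinates `z` with `z (inl c1) = 1` define the morphism `f`, and the degree
`pht` is that of the inverse image of the hyperplane class under `(x, u) ↦ x`. -/
def CurveBoundOff {K : Type} [Field K] [IsAlgClosed K] [CharZero K] (Z : Set (Fin (n + 1)))
    (G : ι → MvPolynomial (Fin (n + 1) ⊕ W) K) (τ : ℚ) : Prop :=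
  ∀ (L : Type) [Field L] [Algebra K L] [IsFF K L] (z : Fin (n + 1) ⊕ W → L) (c1 : Fin (n + 1)),
    z (Sum.inl c1) = 1 → (∃ c ∈ Z, z (Sum.inl c) ≠ 0) → (∀ i, aeval z (G i) = 0) →
    (∃ v, z v ∉ Set.range (algebraMap K L)) → τ * pht K (fun j => z (Sum.inl j)) ≤ canDeg K L

/-- `X = {G = 0}` is algebraically hyperbolic: for some `B`, the degrees of the nonconstant
morphisms from smooth projective curves of genus `g` to `X` are at most `B max (2 g - 2, 0)`. -/
def AlgHyp {K : Type} [Field K] [IsAlgClosed K] [CharZero K]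
    (G : ι → MvPolynomial (Fin (n + 1) ⊕ W) K) : Prop :=
  ∃ B : ℕ, ∀ (L : Type) [Field L] [Algebra K L] [IsFF K L] (z : Fin (n + 1) ⊕ W → L)
    (c1 : Fin (n + 1)), z (Sum.inl c1) = 1 → (∀ i, aeval z (G i) = 0) →
    (∃ v, z v ∉ Set.range (algebraMap K L)) →
    pht K (fun j => z (Sum.inl j)) ≤ B * max (canDeg K L) 0

/-- For each smooth projective curve, the degrees of the morphisms to `X = {G = 0}` are bounded. -/
def BoundedMaps {K : Type} [Field K] [IsAlgClosed K] [CharZero K]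
    (G : ι → MvPolynomial (Fin (n + 1) ⊕ W) K) : Prop :=
  ∀ (L : Type) [Field L] [Algebra K L] [IsFF K L], ∃ B : ℤ, ∀ (z : Fin (n + 1) ⊕ W → L)
    (c1 : Fin (n + 1)), z (Sum.inl c1) = 1 → (∀ i, aeval z (G i) = 0) →
    (∃ v, z v ∉ Set.range (algebraMap K L)) → pht K (fun j => z (Sum.inl j)) ≤ B

/-- All morphisms from smooth projective curves of genus at most `1` to `X = {G = 0}` are
constant. -/
def GenusOneConst {K : Type} [Field K] [IsAlgClosed K] [CharZero K]
    (G : ι → MvPolynomial (Fin (n + 1) ⊕ W) K) : Prop :=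
  ∀ (L : Type) [Field L] [Algebra K L] [IsFF K L], canDeg K L ≤ 0 →
    ∀ (z : Fin (n + 1) ⊕ W → L) (c1 : Fin (n + 1)), z (Sum.inl c1) = 1 →
    (∀ i, aeval z (G i) = 0) → ∀ v, z v ∈ Set.range (algebraMap K L)

section

variable {K : Type} [Field K] {Z : Set (Fin (n + 1))} {G : ι → MvPolynomial (Fin (n + 1) ⊕ W) K}

theorem part_of {L : Type} [Field L] [Algebra K L] {z : Fin (n + 1) ⊕ W → L}
    (hz : ∀ i, aeval z (G i) = 0) (h0 : ∀ c ∈ Z, z (Sum.inl c) = 0) (i : ι ⊕ Z) :
    aeval z (part Z G i) = 0 := by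
  rcases i with i | c
  · exact hz i
  · change aeval z (X (Sum.inl c.1)) = 0
    rw [aeval_X]
    exact h0 c.1 c.2

theorem of_part {L : Type} [Field L] [Algebra K L] {z : Fin (n + 1) ⊕ W → L}
    (hz : ∀ i, aeval z (part Z G i) = 0) (i : ι) : aeval z (G i) = 0 := hz (Sum.inl i)

theorem part_eval {z : Fin (n + 1) ⊕ W → K} (hz : ∀ i, eval z (G i) = 0)
    (h0 : ∀ c ∈ Z, z (Sum.inl c) = 0) (i : ι ⊕ Z) : eval z (part Z G i) = 0 := by
  rcases i with i | c
  · exact hz i
  · change eval z (X (Sum.inl c.1)) = 0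
    rw [eval_X]
    exact h0 c.1 c.2

theorem FinOff.mono {e : W → ℕ} {R R' : Set K} (h : R ⊆ R') (hR : FinOff Z e G R') :
    FinOff Z e G R := by
  obtain ⟨S, hS⟩ := hR
  exact ⟨S, fun z h0 hz hzR => hS z h0 hz fun v => h (hzR v)⟩

/-- The points of `X` and of its part. -/
theorem fin_iff {e : W → ℕ} {R : Set K} (h : FinOff Z e G R) :
    FinOn e G R ↔ FinOn e (part Z G) R := by
  classical
  constructor
  · rintro ⟨S, hS⟩
    exact ⟨S, fun z h0 hz hzR => hS z h0 (fun i => hz (Sum.inl i)) hzR⟩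
  · rintro ⟨S, hS⟩
    obtain ⟨S', hS'⟩ := h
    refine ⟨S ∪ S', fun z h0 hz hzR => ?_⟩
    by_cases hc : ∃ c ∈ Z, z (Sum.inl c) ≠ 0
    · obtain ⟨s, hs, t, ht⟩ := hS' z hc hz hzR
      exact ⟨s, Finset.mem_union_right _ hs, t, ht⟩
    · push Not at hc
      obtain ⟨s, hs, t, ht⟩ := hS z h0 (part_eval hz hc) hzR
      exact ⟨s, Finset.mem_union_left _ hs, t, ht⟩

end

section

variable {K : Type} [Field K] [IsAlgClosed K] [CharZero K] {Z : Set (Fin (n + 1))}
  {G : ι → MvPolynomial (Fin (n + 1) ⊕ W) K} {τ : ℚ}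

theorem alg_iff (hτ : 0 < τ) (h : CurveBoundOff Z G τ) : AlgHyp G ↔ AlgHyp (part Z G) := by
  constructor
  · rintro ⟨B, hB⟩
    exact ⟨B, fun L _ _ _ z c1 h1 hz hnc => hB L z c1 h1 (of_part hz) hnc⟩
  · rintro ⟨B, hB⟩
    obtain ⟨B', hB'⟩ := exists_nat_ge (1 / τ)
    refine ⟨max B B', fun L _ _ _ z c1 h1 hz hnc => ?_⟩
    have hm : (0 : ℤ) ≤ max (canDeg K L) 0 := le_max_right _ _
    by_cases hc : ∃ c ∈ Z, z (Sum.inl c) ≠ 0
    · have h2 := h L z c1 h1 hc hz hnc
      have h3 : (canDeg K L : ℚ) ≤ ((max (canDeg K L) 0 : ℤ) : ℚ) := by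
        exact_mod_cast le_max_left _ _
      have h4 : ((pht K fun j => z (Sum.inl j) : ℤ) : ℚ) ≤
          1 / τ * ((max (canDeg K L) 0 : ℤ) : ℚ) := by
        rw [one_div, ← div_eq_inv_mul, le_div_iff₀ hτ, mul_comm]
        exact h2.trans h3
      have h5 : ((pht K fun j => z (Sum.inl j) : ℤ) : ℚ) ≤
          B' * ((max (canDeg K L) 0 : ℤ) : ℚ) :=
        h4.trans (mul_le_mul_of_nonneg_right hB' (by exact_mod_cast hm))
      have h6 : (pht K fun j => z (Sum.inl j)) ≤ (B' : ℤ) * max (canDeg K L) 0 := by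
        exact_mod_cast h5
      refine h6.trans (mul_le_mul_of_nonneg_right ?_ hm)
      exact_mod_cast le_max_right B B'
    · push Not at hc
      refine (hB L z c1 h1 (part_of hz hc) hnc).trans (mul_le_mul_of_nonneg_right ?_ hm)
      exact_mod_cast le_max_left B B'

theorem bounded_iff (hτ : 0 < τ) (h : CurveBoundOff Z G τ) :
    BoundedMaps G ↔ BoundedMaps (part Z G) := by
  constructor
  · intro hB L _ _ _
    obtain ⟨B, hB⟩ := hB L
    exact ⟨B, fun z c1 h1 hz hnc => hB z c1 h1 (of_part hz) hnc⟩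
  · intro hB L _ _ _
    obtain ⟨B, hB⟩ := hB L
    obtain ⟨B', hB'⟩ := exists_int_gt ((canDeg K L : ℚ) / τ)
    refine ⟨max B B', fun z c1 h1 hz hnc => ?_⟩
    by_cases hc : ∃ c ∈ Z, z (Sum.inl c) ≠ 0
    · have h2 := h L z c1 h1 hc hz hnc
      have h4 : ((pht K fun j => z (Sum.inl j) : ℤ) : ℚ) ≤ canDeg K L / τ := by
        rw [le_div_iff₀ hτ, mul_comm]
        exact h2
      have h5 : (pht K fun j => z (Sum.inl j)) ≤ B' := by
        exact_mod_cast (h4.trans hB'.le)
      exact h5.trans (le_max_right _ _)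
    · push Not at hc
      exact (hB z c1 h1 (part_of hz hc) hnc).trans (le_max_left _ _)

theorem genus_iff (hfo : FiniteOver G) (hτ : 0 < τ) (h : CurveBoundOff Z G τ) :
    GenusOneConst G ↔ GenusOneConst (part Z G) := by
  constructor
  · intro hB L _ _ _ hL z c1 h1 hz
    exact hB L hL z c1 h1 (of_part hz)
  · intro hB L _ _ _ hL z c1 h1 hz
    by_cases hc : ∃ c ∈ Z, z (Sum.inl c) ≠ 0
    · by_contra hcon
      push Not at hcon
      have h2 := h L z c1 h1 hc hz hcon
      have h3 : ((pht K fun j => z (Sum.inl j) : ℤ) : ℚ) ≤ 0 := by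
        have h4 : (canDeg K L : ℚ) ≤ 0 := by exact_mod_cast hL
        by_contra h5
        push Not at h5
        have := mul_pos hτ h5
        linarith
      have h6 : (pht K fun j => z (Sum.inl j)) ≤ 0 := by exact_mod_cast h3
      obtain ⟨v, hv⟩ := hcon
      refine hv (const_of_x hfo z hz (fun j => ?_) v)
      obtain ⟨r, hr⟩ := const_of_pht h6 h1 j
      exact ⟨r, hr.symm⟩
    · push Not at hc
      exact hB L hL z c1 h1 (part_of hz hc)

end

/-- Finiteness of the points not over the linear subspace. -/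
theorem fin_off {k0 K : Type} [Field k0] [Field K] [Algebra k0 K] {m : ℕ} {d q : A → ℕ}
    [IsAlgClosed K] [CharZero K] [IsAlgClosed k0] [Fintype A] [DecidableEq A]
    (C : Finset A) (hq : ∀ a, a ∉ C → q a ≠ 0)
    (hd : (2 * m + 1 : ℚ) < ∑ a ∈ C, ((d a : ℚ) + 1) + ∑ a ∈ Cᶜ, (d a : ℚ) * (1 - 1 / q a))
    (V : Set (MvPolynomial (Fin (n + 1)) k0)) (hV : DimLE k0 V m)
    {J : A → Type} [∀ a, Fintype (J a)]
    (P : ∀ a, J a → MvPolynomial (Fin (n + 1)) k0) (hP : ∀ a j, (P a j).IsHomogeneous (d a))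
    (cf : ∀ a, J a → K) (j0 : ∀ a, J a) (h0 : ∀ a, cf a (j0 a) ≠ 0)
    (hind : AlgebraicIndependent k0 fun p : Σ a, {j : J a // j ≠ j0 a} =>
      cf p.1 p.2.1 / cf p.1 (j0 p.1))
    {F : A → MvPolynomial (Fin (n + 1)) K}
    (hFP : ∀ a, F a = ∑ j, MvPolynomial.C (cf a j) * map (algebraMap k0 K) (P a j))
    [Finite W] [Finite ι] (e : W → ℕ)
    (G : ι → MvPolynomial (Fin (n + 1) ⊕ W) K)
    (hGh : ∀ i, ∃ c, (G i).IsWeightedHomogeneous (wts e) c) (hfo : FiniteOver G)
    (hov : Over V F C G) (hram : ∀ a, a ∉ C → RamifiedOver G (F a) (q a))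
    (Z : Set (Fin (n + 1))) (hSt : ∀ c ∈ Z, ∀ a, ∀ I ∈ St c (d a), ∃ j, P a j = monomial I 1)
    (T : Finset K) : FinOff Z e G (IntermediateField.adjoin k0 (T : Set K)) := by
  classical
  have h1 : ∀ c : Fin (n + 1), ∃ S : Finset (Fin (n + 1) ⊕ W → K), c ∈ Z →
      ∀ z : Fin (n + 1) ⊕ W → K, z (Sum.inl c) ≠ 0 → (∀ i, eval z (G i) = 0) →
      (∀ v, z v ∈ IntermediateField.adjoin k0 (T : Set K)) →
      ∃ s ∈ S, ∃ t : K, ∀ v, z v = t ^ wts e v * s v := by
    intro c
    by_cases hc : c ∈ Z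
    · obtain ⟨S, hS⟩ := fin_cover C hq hd V hV P hP cf j0 h0 hind hFP e G hGh hfo hov hram c
        (hSt c hc) T
      exact ⟨S, fun _ => hS⟩
    · exact ⟨∅, fun h => absurd h hc⟩
  choose S hS using h1
  refine ⟨Finset.univ.biUnion S, ?_⟩
  rintro z ⟨c, hc, hzc⟩ hz hzT
  obtain ⟨s, hs, t, ht⟩ := hS c hc z hzc hz hzT
  exact ⟨s, Finset.mem_biUnion.2 ⟨c, Finset.mem_univ _, hs⟩, t, ht⟩

/-- The points of the part, if `V` has only finitely many points in the linear subspace. -/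
theorem fin_part {k0 K : Type} [Field k0] [Field K] [Algebra k0 K] [IsAlgClosed K]
    [Finite W] {V : Set (MvPolynomial (Fin (n + 1)) k0)}
    {F : A → MvPolynomial (Fin (n + 1)) K} {C : Finset A} {Z : Set (Fin (n + 1))} {e : W → ℕ}
    (he : ∀ w, 0 < e w) {G : ι → MvPolynomial (Fin (n + 1) ⊕ W) K}
    (hGh : ∀ i, ∃ c, (G i).IsWeightedHomogeneous (wts e) c) (hfo : FiniteOver G)
    (hov : Over V F C G)
    (hVE : {p : Projectivization K (Fin (n + 1) → K) |
      ∃ (x : Fin (n + 1) → K) (hx : x ≠ 0), p = Projectivization.mk K x hx ∧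
        (∀ f ∈ V, aeval x f = 0) ∧ ∀ c ∈ Z, x c = 0}.Finite) (R : Set K) :
    FinOn e (part Z G) R := by
  classical
  have h1 : (⋃ p ∈ {p : Projectivization K (Fin (n + 1) → K) |
      ∃ (x : Fin (n + 1) → K) (hx : x ≠ 0), p = Projectivization.mk K x hx ∧
        (∀ f ∈ V, aeval x f = 0) ∧ ∀ c ∈ Z, x c = 0},
      {z : Fin (n + 1) ⊕ W → K | (∀ i, eval z (G i) = 0) ∧
        ∀ j, z (Sum.inl j) = p.rep j}).Finite :=
    Set.Finite.biUnion hVE fun p _ => fibre_finite hfo p.rep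
  refine ⟨h1.toFinset, fun z hz0 hz hzR => ?_⟩
  have hzG : ∀ i, eval z (G i) = 0 := fun i => hz (Sum.inl i)
  obtain ⟨c, hc⟩ := x_ne_zero he hGh hfo hz0 hzG
  obtain ⟨x, hx⟩ : ∃ x : Fin (n + 1) → K, x = fun j => z (Sum.inl j) := ⟨_, rfl⟩
  have hx0 : x ≠ 0 := fun h => hc (by
    have := congrFun h c
    rw [hx] at this
    exact this)
  have hrep := Projectivization.mk_rep (Projectivization.mk K x hx0)
  obtain ⟨a, ha⟩ := (Projectivization.mk_eq_mk_iff' K _ _
    (Projectivization.rep_nonzero (Projectivization.mk K x hx0)) hx0).1 hrep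
  -- `a • x = rep`
  have ha0 : a ≠ 0 := by
    intro h
    rw [h, zero_smul] at ha
    exact Projectivization.rep_nonzero (Projectivization.mk K x hx0) ha.symm
  have hzG' : ∀ i, eval (fun v => a ^ wts e v * z v) (G i) = 0 := by
    intro i
    obtain ⟨c', hc'⟩ := hGh i
    rw [eval_scale hc', hzG i, mul_zero]
  refine ⟨fun v => a ^ wts e v * z v, ?_, a⁻¹, fun v => ?_⟩
  · rw [Set.Finite.mem_toFinset, Set.mem_iUnion₂]
    refine ⟨Projectivization.mk K x hx0, ⟨x, hx0, rfl, ?_, fun c hc => ?_⟩, hzG', fun j => ?_⟩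
    · rw [hx]
      exact (hov z hzG).1
    · have h4 := hz (Sum.inr ⟨c, hc⟩)
      change eval z (X (Sum.inl c)) = 0 at h4
      rw [eval_X] at h4
      rw [hx]
      exact h4
    · have h5 := congrFun ha j
      rw [← h5, Pi.smul_apply, smul_eq_mul, hx]
      change a ^ 1 * z (Sum.inl j) = _
      rw [pow_one]
  · rw [← mul_assoc, ← mul_pow, inv_mul_cancel₀ ha0, one_pow, one_mul]

/-- The points over extension fields of the part are constant, if `V` has only finitely many points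
in the linear subspace. -/
theorem const_part {k0 K L : Type} [Field k0] [Field K] [Algebra k0 K] [IsAlgClosed K] [Field L]
    [Algebra K L] [Finite W] {V : Set (MvPolynomial (Fin (n + 1)) k0)}
    {F : A → MvPolynomial (Fin (n + 1)) K} {C : Finset A} {Z : Set (Fin (n + 1))}
    {G : ι → MvPolynomial (Fin (n + 1) ⊕ W) K} (hfo : FiniteOver G) (hov : Over V F C G)
    (hVE : {p : Projectivization K (Fin (n + 1) → K) |
      ∃ (x : Fin (n + 1) → K) (hx : x ≠ 0), p = Projectivization.mk K x hx ∧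
        (∀ f ∈ V, aeval x f = 0) ∧ ∀ c ∈ Z, x c = 0}.Finite)
    {z : Fin (n + 1) ⊕ W → L} {c1 : Fin (n + 1)} (h1 : z (Sum.inl c1) = 1)
    (hz : ∀ i, aeval z (part Z G i) = 0) (v : Fin (n + 1) ⊕ W) :
    z v ∈ Set.range (algebraMap K L) := by
  classical
  refine const_of_x hfo z (of_part hz) (fun j => ?_) v
  have h2 := ns_point (part Z G) (X (Sum.inl c1) *
    ∏ p ∈ hVE.toFinset.filter (fun p => p.rep c1 ≠ 0),
    (MvPolynomial.C (p.rep c1) * X (Sum.inl j) - MvPolynomial.C (p.rep j) * X (Sum.inl c1))) (fun y hy => by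
      rw [map_mul, eval_X, map_prod]
      by_cases hy1 : y (Sum.inl c1) = 0
      · rw [hy1, zero_mul]
      · refine mul_eq_zero_of_right _ ?_
        have hx0 : (fun j => y (Sum.inl j)) ≠ (0 : Fin (n + 1) → K) := fun h => hy1 (congrFun h c1)
        obtain ⟨a, ha⟩ := (Projectivization.mk_eq_mk_iff' K _ _
          (Projectivization.rep_nonzero (Projectivization.mk K _ hx0)) hx0).1
          (Projectivization.mk_rep (Projectivization.mk K _ hx0))
        have ha0 : a ≠ 0 := by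
          intro h
          rw [h, zero_smul] at ha
          exact Projectivization.rep_nonzero (Projectivization.mk K _ hx0) ha.symm
        have e1 := congrFun ha c1
        have e2 := congrFun ha j
        simp only [Pi.smul_apply, smul_eq_mul] at e1 e2
        refine Finset.prod_eq_zero (i := Projectivization.mk K _ hx0) ?_ ?_
        · rw [Finset.mem_filter, Set.Finite.mem_toFinset]
          refine ⟨⟨_, hx0, rfl, (hov y fun i => hy (Sum.inl i)).1, fun c hc => ?_⟩, ?_⟩
          · have h4 := hy (Sum.inr ⟨c, hc⟩)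
            change eval y (X (Sum.inl c)) = 0 at h4
            rwa [eval_X] at h4
          · rw [← e1]
            exact mul_ne_zero ha0 hy1
        · simp only [map_sub, map_mul, eval_C, eval_X]
          rw [← e1, ← e2]
          ring) z hz
  rw [map_mul, aeval_X, h1, one_mul, map_prod, Finset.prod_eq_zero_iff] at h2
  obtain ⟨p, hpm, hp⟩ := h2
  have h0 : p.rep c1 ≠ 0 := (Finset.mem_filter.1 hpm).2
  simp only [map_sub, map_mul, aeval_X, h1, mul_one] at hp
  rw [show aeval z (MvPolynomial.C (p.rep c1)) = algebraMap K L (p.rep c1) from aeval_C _ _,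
    show aeval z (MvPolynomial.C (p.rep j)) = algebraMap K L (p.rep j) from aeval_C _ _, sub_eq_zero] at hp
  refine ⟨p.rep j / p.rep c1, ?_⟩
  rw [map_div₀, ← hp, mul_comm, mul_div_assoc, div_self, mul_one]
  rwa [Ne, map_eq_zero]

end Pool.Agent.V8H90.LS
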